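import Pool.Agent.T2h14.CF.Defs

/-!
# Exterior products of odd homology classes are orthogonal to cohomological field theories
-/

set_option autoImplicit false

namespace Pool.Agent.T2h14.CF.Old

open CategoryTheory CategoryTheory.Limits TensorProduct

universe u v w

namespace CohomologyTheory

variable {𝒞 : Type u} [Category.{v} 𝒞] [HasBinaryProducts 𝒞] (T : CohomologyTheory.{u, v, w} 𝒞)

/-- The Künneth isomorphism. -/
noncomputable def crossE (X Y : 𝒞) : T.H X ⊗[ℚ] T.H Y ≃ₗ[ℚ] T.H (X ⨯ Y) :=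
  LinearEquiv.ofBijective _ (T.kuenneth X Y)

lemma crossE_tmul {X Y : 𝒞} (x : T.H X) (y : T.H Y) :
    T.crossE X Y (x ⊗ₜ y) = T.pull prod.fst x * T.pull prod.snd y := rfl

/-- The exterior product of two homology classes. -/
noncomputable def ext {X Y : 𝒞} (a : T.Homology X) (b : T.Homology Y) : T.Homology (X ⨯ Y) :=
  (TensorProduct.lid ℚ ℚ).toLinearMap ∘ₗ TensorProduct.map a b ∘ₗ (T.crossE X Y).symm.toLinearMap

lemma ext_apply {X Y : 𝒞} (a : T.Homology X) (b : T.Homology Y) (x : T.H X) (y : T.H Y) :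
    T.ext a b (T.pull prod.fst x * T.pull prod.snd y) = a x * b y := by
  rw [← T.crossE_tmul]
  simp [ext]

/-- The homology class is a sum of classes of odd degree: it vanishes on the cohomology of even
degree. -/
def IsOdd {X : 𝒞} (a : T.Homology X) : Prop := ∀ (k : ℕ) (x : T.H X), x ∈ T.deg X (2 * k) → a x = 0

variable {T}

lemma ext_swap {X Y : 𝒞} {a : T.Homology X} {b : T.Homology Y} (ha : T.IsOdd a) (hb : T.IsOdd b)
    (x : T.H X) (y : T.H Y) :
    T.ext a b (T.pull prod.snd y * T.pull prod.fst x) = -(a x * b y) := by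
  induction x using DirectSum.Decomposition.inductionOn (T.deg X) with
  | zero => simp
  | add x x' hx hx' =>
    rw [map_add, mul_add, map_add, hx, hx', map_add]
    ring
  | @homogeneous i x =>
    induction y using DirectSum.Decomposition.inductionOn (T.deg Y) with
    | zero => simp
    | add y y' hy hy' =>
      rw [map_add, add_mul, map_add, hy, hy', map_add]
      ring
    | @homogeneous j y =>
      rw [T.comm _ j i _ _ (T.pull_deg _ _ _ y.2) (T.pull_deg _ _ _ x.2), map_smul, T.ext_apply]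
      rcases Nat.even_or_odd' i with ⟨k, rfl | rfl⟩
      · rw [ha k _ x.2]
        simp
      · rcases Nat.even_or_odd' j with ⟨l, rfl | rfl⟩
        · rw [hb l _ y.2]
          simp
        · have h : ((-1 : ℚ)) ^ ((2 * l + 1) * (2 * k + 1)) = -1 :=
            Odd.neg_one_pow (Odd.mul ⟨l, rfl⟩ ⟨k, rfl⟩)
          rw [h, neg_one_smul]

variable (T)

lemma pullC_tmul {X Y : 𝒞} (f : X ⟶ Y) (z : ℂ) (x : T.H Y) :
    T.pullC f (z ⊗ₜ x) = z ⊗ₜ T.pull f x := rfl

lemma pullC_comp {X Y Z : 𝒞} (f : X ⟶ Y) (g : Y ⟶ Z) (x : T.HC Z) :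
    T.pullC (f ≫ g) x = T.pullC f (T.pullC g x) := by
  induction x using TensorProduct.induction_on with
  | zero => simp
  | tmul z x => rw [T.pullC_tmul, T.pullC_tmul, T.pullC_tmul, T.pull_comp]
  | add x y hx hy => rw [map_add, map_add, map_add, hx, hy]

lemma pairing_tmul {X : 𝒞} (a : T.Homology X) (z : ℂ) (x : T.H X) :
    T.pairing a (z ⊗ₜ x) = (a x : ℂ) * z := by
  unfold pairing
  rw [Module.Dual.baseChange_apply_tmul, Rat.smul_def]

/-- The push-forward of a homology class. -/
noncomputable def push {X Y : 𝒞} (f : X ⟶ Y) (a : T.Homology X) : T.Homology Y :=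
  a ∘ₗ (T.pull f).toLinearMap

lemma pairing_push {X Y : 𝒞} (f : X ⟶ Y) (a : T.Homology X) (x : T.HC Y) :
    T.pairing (T.push f a) x = T.pairing a (T.pullC f x) := by
  induction x using TensorProduct.induction_on with
  | zero => simp
  | tmul z x =>
    rw [T.pullC_tmul, T.pairing_tmul, T.pairing_tmul]
    rfl
  | add x y hx hy => rw [map_add, map_add, map_add, hx, hy]

lemma pairing_ext {X Y : 𝒞} (a : T.Homology X) (b : T.Homology Y) (x : T.HC X) (y : T.HC Y) :
    T.pairing (T.ext a b) (T.pullC prod.fst x * T.pullC prod.snd y) =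
      T.pairing a x * T.pairing b y := by
  induction x using TensorProduct.induction_on with
  | zero => simp
  | add x x' hx hx' =>
    rw [map_add, add_mul, map_add, hx, hx', map_add]
    ring
  | tmul z x =>
    induction y using TensorProduct.induction_on with
    | zero => simp
    | add y y' hy hy' =>
      rw [map_add, mul_add, map_add, hy, hy', map_add]
      ring
    | tmul z' y =>
      rw [T.pullC_tmul, T.pullC_tmul, Algebra.TensorProduct.tmul_mul_tmul, T.pairing_tmul,
        T.pairing_tmul, T.pairing_tmul, T.ext_apply]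
      push_cast
      ring

variable {T}

lemma pairing_ext_swap {X Y : 𝒞} {a : T.Homology X} {b : T.Homology Y} (ha : T.IsOdd a)
    (hb : T.IsOdd b) (x : T.HC X) (y : T.HC Y) :
    T.pairing (T.ext a b) (T.pullC prod.snd y * T.pullC prod.fst x) =
      -(T.pairing a x * T.pairing b y) := by
  induction x using TensorProduct.induction_on with
  | zero => simp
  | add x x' hx hx' =>
    rw [map_add, mul_add, map_add, hx, hx', map_add]
    ring
  | tmul z x =>
    induction y using TensorProduct.induction_on with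
    | zero => simp
    | add y y' hy hy' =>
      rw [map_add, add_mul, map_add, hy, hy', map_add]
      ring
    | tmul z' y =>
      rw [T.pullC_tmul, T.pullC_tmul, Algebra.TensorProduct.tmul_mul_tmul, T.pairing_tmul,
        T.pairing_tmul, T.pairing_tmul, ext_swap ha hb]
      push_cast
      ring

end CohomologyTheory

section

variable {𝒞 : Type u} [Category.{v} 𝒞] [HasBinaryProducts 𝒞] {T : CohomologyTheory.{u, v, w} 𝒞}
  {M : StableCurves T}

lemma append_flip {α : Type*} {m n : ℕ} (v : Fin m → α) (w : Fin n → α) :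
    Fin.append w v ∘ (finAddFlip : Fin (n + m) ≃ Fin (m + n)).symm = Fin.append v w := by
  funext i
  rw [Function.comp_apply]
  refine Fin.addCases (fun i => ?_) (fun i => ?_) i
  · have h : (finAddFlip : Fin (n + m) ≃ Fin (m + n)).symm (Fin.castAdd n i) = Fin.natAdd n i := by
      rw [Equiv.symm_apply_eq, finAddFlip_apply_natAdd]
    rw [h, Fin.append_right, Fin.append_left]
  · have h : (finAddFlip : Fin (n + m) ≃ Fin (m + n)).symm (Fin.natAdd m i) = Fin.castAdd m i := by
      rw [Equiv.symm_apply_eq, finAddFlip_apply_castAdd]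
    rw [h, Fin.append_left, Fin.append_right]

/-- The push-forward of the exterior product of two odd homology classes under the gluing map is
orthogonal to all cohomological field theories. -/
theorem pairing_zero (F : CohFT M) {g₁ n₁ g₂ n₂ : ℕ} (h₁ : Stable g₁ (n₁ + 1))
    (h₂ : Stable g₂ (n₂ + 1)) {a : T.Homology (M.Mbar g₁ (n₁ + 1))}
    {b : T.Homology (M.Mbar g₂ (n₂ + 1))} (ha : T.IsOdd a) (hb : T.IsOdd b)
    (v : Fin (n₁ + n₂) → F.V) :
    T.pairing (T.push (M.sep g₁ n₁ g₂ n₂) (T.ext a b)) (F.Ω (g₁ + g₂) (n₁ + n₂) v) = 0 := by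
  classical
  obtain ⟨v, w, rfl⟩ : ∃ (v' : Fin n₁ → F.V) (w : Fin n₂ → F.V), v = Fin.append v' w :=
    ⟨_, _, (Fin.append_castAdd_natAdd).symm⟩
  have hst : Stable (g₂ + g₁) (n₂ + n₁) := by
    unfold Stable at *
    omega
  let e := Module.finBasis ℂ F.V
  let e' := F.η.dualBasis F.nondeg e
  have hee : F.η.dualBasis F.nondeg e' = e :=
    LinearMap.BilinForm.dualBasis_dualBasis F.nondeg F.symm e
  have hL1 : T.pairing (T.push (M.sep g₁ n₁ g₂ n₂) (T.ext a b))
      (F.Ω (g₁ + g₂) (n₁ + n₂) (Fin.append v w)) =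
      ∑ i, T.pairing a (F.Ω g₁ (n₁ + 1) (Fin.snoc v (e i))) *
        T.pairing b (F.Ω g₂ (n₂ + 1) (Fin.snoc w (e' i))) := by
    rw [T.pairing_push, F.separating g₁ n₁ g₂ n₂ h₁ h₂ e, map_sum]
    exact Finset.sum_congr rfl fun i _ => T.pairing_ext a b _ _
  have hΩ : F.Ω (g₁ + g₂) (n₁ + n₂) (Fin.append v w) =
      T.pullC (M.relabel (Nat.add_comm g₁ g₂)
        (finAddFlip : Fin (n₂ + n₁) ≃ Fin (n₁ + n₂))) (F.Ω (g₂ + g₁) (n₂ + n₁) (Fin.append w v)) := by
    rw [F.equivariant _ _ _ hst, append_flip]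
  have hL2 : T.pairing (T.push (M.sep g₁ n₁ g₂ n₂) (T.ext a b))
      (F.Ω (g₁ + g₂) (n₁ + n₂) (Fin.append v w)) =
      -∑ i, T.pairing a (F.Ω g₁ (n₁ + 1) (Fin.snoc v (e i))) *
        T.pairing b (F.Ω g₂ (n₂ + 1) (Fin.snoc w (e' i))) := by
    rw [T.pairing_push, hΩ, ← T.pullC_comp, M.sep_swap g₁ n₁ g₂ n₂ h₁ h₂, T.pullC_comp,
      F.separating g₂ n₂ g₁ n₁ h₂ h₁ e', map_sum, map_sum, ← Finset.sum_neg_distrib]
    refine Finset.sum_congr rfl fun i _ => ?_
    rw [map_mul, ← T.pullC_comp, ← T.pullC_comp, prod.lift_fst, prod.lift_snd, hee]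
    exact CohomologyTheory.pairing_ext_swap ha hb _ _
  have h3 := hL1.symm.trans hL2
  rw [hL1]
  have h4 := add_eq_zero_iff_eq_neg.2 h3
  rw [← two_mul] at h4
  exact (mul_eq_zero.1 h4).resolve_left two_ne_zero

end

end Pool.Agent.T2h14.CF.Old
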