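import Pool.Agent.T2h14.CF.Main

/-!
# The definitions of the statement and the definitions of the proofs
-/

set_option autoImplicit false

namespace Pool.Agent.T2h14.CF

open CategoryTheory CategoryTheory.Limits TensorProduct

universe u v w

variable {T : Cohomology.{u, v, w}}

/-- The data of the cohomology. -/
def oldData (T : Cohomology.{u, v, w}) : Old.CohomologyData.{u, v, w} T.Space where
  H := T.H
  ring := T.ring
  algebra := T.algebra
  finite := T.finite
  deg := T.deg
  graded := T.graded
  pull := T.pull

/-- The cohomology. -/
def oldTheory (hT : T.IsCohomology) : Old.CohomologyTheory.{u, v, w} T.Space where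
  toCohomologyData := oldData T
  comm := hT.comm
  pull_id := hT.pull_id
  pull_comp := hT.pull_comp
  pull_deg := hT.pull_deg
  kuenneth := by
    intro X Y
    obtain ⟨e, he⟩ := hT.kuenneth X Y
    have h : (oldData T).cross X Y = e.toLinearMap := TensorProduct.ext' fun a b => (he a b).symm
    rw [h]
    exact e.bijective

/-- The moduli spaces. -/
def oldCurves (hT : T.IsCohomology) {M : Moduli T} (hM : M.IsStableCurves) :
    Old.StableCurves (oldTheory hT) where
  Mbar := M.Mbar
  relabel := M.relabel
  forget := M.forget
  sep := M.sep
  irr := M.irr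
  psi := M.psi
  sep_swap := hM.sep_swap
  psi_deg := hM.psi_deg
  dilaton := hM.dilaton
  self_intersection := by
    intro g₁ n₁ g₂ n₂ h₁ h₂ s₁ s₂
    obtain ⟨s, hs⟩ := hM.self_intersection g₁ n₁ g₂ n₂ h₁ h₂ s₁ s₂
    exact ⟨s, fun y => (hs y).trans (neg_mul _ _)⟩
  one_ne_zero := hM.one_ne_zero
  cusp := hM.cusp

/-- The cohomological field theories. -/
def oldField (hT : T.IsCohomology) {M : Moduli T} (hM : M.IsStableCurves) {F : FieldData M}
    (hF : F.IsCohFT) : Old.CohFT (oldCurves hT hM) where
  V := F.V
  addCommGroup := F.addCommGroup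
  module := F.module
  finite := F.finite
  η := F.η
  symm := F.symm
  nondeg := F.nondeg
  one := F.one
  Ω := F.Ω
  equivariant := hF.equivariant
  separating := hF.separating
  nonSeparating := hF.nonSeparating
  unit := hF.unit

theorem determined_old (hT : T.IsCohomology) {M : Moduli T} (hM : M.IsStableCurves) {g n : ℕ}
    (h : M.Determined g n) : Old.Determined (oldCurves hT hM) g n :=
  fun A B hAB => h A B fun _ hF v => hAB (oldField hT hM hF) v

end Pool.Agent.T2h14.CF
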