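import Pool.Agent.T2h14.CF.Stm

/-!
# Cohomological field theories and the cohomology of the moduli spaces: the form for the proofs

The definitions of `Stm`, in the form in which they are used in the proofs. The singular cohomology with rational coefficients, as a functor on a category with products, the
moduli spaces of stable pointed curves with the maps between them, and cohomological field theories.
-/

set_option autoImplicit false

namespace Pool.Agent.T2h14.CF.Old

open CategoryTheory CategoryTheory.Limits TensorProduct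

universe u v w

/-! ### Cohomology -/

/-- The data of a cohomology theory with rational coefficients: `H X` is the total cohomology
`⨁ H^k(X; ℚ)` of the object `X` of the category `𝒞`, with the cup product and the grading `deg`, and
`pull f` is the pull-back under the morphism `f`. -/
structure CohomologyData (𝒞 : Type u) [Category.{v} 𝒞] where
  H : 𝒞 → Type w
  [ring : ∀ X, Ring (H X)]
  [algebra : ∀ X, Algebra ℚ (H X)]
  [finite : ∀ X, Module.Finite ℚ (H X)]
  deg : ∀ X, ℕ → Submodule ℚ (H X)
  [graded : ∀ X, GradedAlgebra (deg X)]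
  pull : ∀ {X Y : 𝒞}, (X ⟶ Y) → (H Y →ₐ[ℚ] H X)

attribute [instance] CohomologyData.ring CohomologyData.algebra CohomologyData.finite
  CohomologyData.graded

namespace CohomologyData

variable {𝒞 : Type u} [Category.{v} 𝒞] (T : CohomologyData.{u, v, w} 𝒞)

/-- The cup product is graded commutative. -/
def IsGradedCommutative : Prop :=
  ∀ (X : 𝒞) (i j : ℕ) (a b : T.H X), a ∈ T.deg X i → b ∈ T.deg X j →
    a * b = (-1 : ℚ) ^ (i * j) • (b * a)

/-- Pull-backs respect the identity. -/
def PullId : Prop := ∀ (X : 𝒞) (a : T.H X), T.pull (𝟙 X) a = a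

/-- Pull-backs respect compositions. -/
def PullComp : Prop :=
  ∀ {X Y Z : 𝒞} (f : X ⟶ Y) (g : Y ⟶ Z) (a : T.H Z), T.pull (f ≫ g) a = T.pull f (T.pull g a)

/-- Pull-backs respect the degree. -/
def PullDeg : Prop :=
  ∀ {X Y : 𝒞} (f : X ⟶ Y) (k : ℕ) (a : T.H Y), a ∈ T.deg Y k → T.pull f a ∈ T.deg X k

/-- The cross product, which maps `a ⊗ b` to `pr₁^* a * pr₂^* b`. -/
noncomputable def cross [HasBinaryProducts 𝒞] (X Y : 𝒞) : T.H X ⊗[ℚ] T.H Y →ₗ[ℚ] T.H (X ⨯ Y) :=
  LinearMap.mul' ℚ (T.H (X ⨯ Y)) ∘ₗ TensorProduct.map (T.pull (prod.fst : X ⨯ Y ⟶ X)).toLinearMap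
    (T.pull (prod.snd : X ⨯ Y ⟶ Y)).toLinearMap

/-- The Künneth formula: the cross product is an isomorphism. -/
def HasKuenneth [HasBinaryProducts 𝒞] : Prop := ∀ X Y : 𝒞, Function.Bijective (T.cross X Y)

end CohomologyData

/-- A cohomology theory with rational coefficients, with a graded commutative cup product and the
Künneth formula. The example is singular cohomology on the category of the non-empty compact spaces
which are homeomorphic to finite CW complexes. -/
structure CohomologyTheory (𝒞 : Type u) [Category.{v} 𝒞] [HasBinaryProducts 𝒞] extends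
    CohomologyData.{u, v, w} 𝒞 where
  comm : toCohomologyData.IsGradedCommutative
  pull_id : toCohomologyData.PullId
  pull_comp : toCohomologyData.PullComp
  pull_deg : toCohomologyData.PullDeg
  kuenneth : toCohomologyData.HasKuenneth

namespace CohomologyTheory

variable {𝒞 : Type u} [Category.{v} 𝒞] [HasBinaryProducts 𝒞] (T : CohomologyTheory.{u, v, w} 𝒞)

/-- The cohomology with complex coefficients, `H^*(X; ℂ) = ℂ ⊗ H^*(X; ℚ)`. -/
abbrev HC (X : 𝒞) : Type w := ℂ ⊗[ℚ] T.H X

/-- The pull-back in the cohomology with complex coefficients. -/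
noncomputable def pullC {X Y : 𝒞} (f : X ⟶ Y) : T.HC Y →ₐ[ℂ] T.HC X :=
  Algebra.TensorProduct.map (AlgHom.id ℂ ℂ) (T.pull f)

/-- The rational homology `H_*(X; ℚ)`: the dual space of the (finite-dimensional) rational
cohomology. -/
abbrev Homology (X : 𝒞) : Type w := Module.Dual ℚ (T.H X)

/-- The pairing of a rational homology class with the classes in the complex cohomology, with
values in `ℂ`: `⟨A, z ⊗ a⟩ = z * A a`. -/
noncomputable def pairing {X : 𝒞} (A : T.Homology X) : T.HC X →ₗ[ℂ] ℂ :=
  Module.Dual.baseChange ℂ A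

end CohomologyTheory

/-! ### Moduli spaces of stable curves -/

section

variable {𝒞 : Type u} [Category.{v} 𝒞] [HasBinaryProducts 𝒞]

/-- The moduli spaces `Mbar g n` of stable curves of genus `g` with `n` markings, with

* the maps `relabel`: for a bijection `e` of the sets of markings, `relabel e` maps the curve
  `(C, p)` with the markings `p : Fin m → C` to `(C, p ∘ e)`;
* the map `forget`, which forgets the last marking (and contracts the unstable component);
* the gluing maps: `sep` maps the pair `(C₁, C₂)` to the curve which is given by gluing the last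
  marking of `C₁` and the last marking of `C₂`, the markings of `C₁` come first; `irr` glues the last
  two markings of a curve;
* `psi`: the first Chern class `ψ` of the cotangent line at the last marking.

They are objects and morphisms of the category `𝒞` (for instance of compact topological spaces;
the rational cohomology of the moduli stacks is the one of their coarse moduli spaces). Only the
values with `Stable g n` matter, for the others take a point. -/
structure CurveData (T : CohomologyTheory.{u, v, w} 𝒞) where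
  Mbar : ℕ → ℕ → 𝒞
  relabel : ∀ {g g' m n : ℕ}, g = g' → (Fin n ≃ Fin m) → (Mbar g m ⟶ Mbar g' n)
  forget : ∀ g n : ℕ, Mbar g (n + 1) ⟶ Mbar g n
  sep : ∀ g₁ n₁ g₂ n₂ : ℕ, Mbar g₁ (n₁ + 1) ⨯ Mbar g₂ (n₂ + 1) ⟶ Mbar (g₁ + g₂) (n₁ + n₂)
  irr : ∀ g n : ℕ, Mbar g (n + 2) ⟶ Mbar (g + 1) n
  psi : ∀ g n : ℕ, T.H (Mbar g (n + 1))

namespace CurveData

variable {T : CohomologyTheory.{u, v, w} 𝒞} (M : CurveData T)

/-- The gluing of `(C₂, C₁)` is the gluing of `(C₁, C₂)` with the two blocks of markings
exchanged (by definition). -/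
def SepSwap : Prop :=
  ∀ g₁ n₁ g₂ n₂ : ℕ, Stable g₁ (n₁ + 1) → Stable g₂ (n₂ + 1) →
    M.sep g₁ n₁ g₂ n₂ ≫ M.relabel (Nat.add_comm g₁ g₂)
      (finAddFlip : Fin (n₂ + n₁) ≃ Fin (n₁ + n₂)) =
      prod.lift prod.snd prod.fst ≫ M.sep g₂ n₂ g₁ n₁

/-- The class `ψ` has degree `2`. -/
def PsiDeg : Prop := ∀ g n : ℕ, Stable g (n + 1) → M.psi g n ∈ T.deg (M.Mbar g (n + 1)) 2

/-- With the push-forward `p = π_*` under the map `π` which forgets the last marking, `π_* π^* a = 0`
and `π_* (ψ * π^* a) = (2 g - 2 + n) a` (the projection formula, and the dilaton equation). -/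
def Dilaton : Prop :=
  ∀ g n : ℕ, Stable g n → ∃ p : T.H (M.Mbar g (n + 1)) →ₗ[ℚ] T.H (M.Mbar g n),
    (∀ a, p (T.pull (M.forget g n) a) = 0) ∧
      ∀ a, p (M.psi g n * T.pull (M.forget g n) a) = (2 * (g : ℚ) - 2 + n) • a

/-- The self-intersection formula: if there are markings on both components then the gluing map
`ξ = sep` is a closed embedding of codimension one whose normal bundle is the tensor product of the
tangent lines at the two points, and so `ξ^* ξ_* y = - (ψ ⊗ 1 + 1 ⊗ ψ) * y` with the push-forward
`s = ξ_*`. -/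
def SelfIntersection : Prop :=
  ∀ g₁ n₁ g₂ n₂ : ℕ, 1 ≤ n₁ → 1 ≤ n₂ → Stable g₁ (n₁ + 1) → Stable g₂ (n₂ + 1) →
    ∃ s : T.H (M.Mbar g₁ (n₁ + 1) ⨯ M.Mbar g₂ (n₂ + 1)) →ₗ[ℚ] T.H (M.Mbar (g₁ + g₂) (n₁ + n₂)),
      ∀ y, T.pull (M.sep g₁ n₁ g₂ n₂) (s y) =
        -((T.pull prod.fst (M.psi g₁ n₁) + T.pull prod.snd (M.psi g₂ n₂)) * y)

/-- The moduli spaces are not empty: `1 ≠ 0` in their cohomology. -/
def OneNeZero : Prop := ∀ g n : ℕ, Stable g n → (1 : T.H (M.Mbar g n)) ≠ 0

/-- The group `H^11` of the moduli space of curves of genus one with eleven markings is not zero (it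
is given by the cusp form of weight `12`). -/
def CuspForm : Prop := ∃ a ∈ T.deg (M.Mbar 1 11) 11, a ≠ 0

end CurveData

/-- The moduli spaces of stable curves, with the known facts on their cohomology which we use. -/
structure StableCurves (T : CohomologyTheory.{u, v, w} 𝒞) extends CurveData T where
  sep_swap : toCurveData.SepSwap
  psi_deg : toCurveData.PsiDeg
  dilaton : toCurveData.Dilaton
  self_intersection : toCurveData.SelfIntersection
  one_ne_zero : toCurveData.OneNeZero
  cusp : toCurveData.CuspForm

end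

/-! ### Cohomological field theories -/

section

variable {𝒞 : Type u} [Category.{v} 𝒞] [HasBinaryProducts 𝒞] {T : CohomologyTheory.{u, v, w} 𝒞}

/-- The data `(V, η, 1, Ω)` of a cohomological field theory: `V` is a finite-dimensional complex
vector space, `η` a nondegenerate symmetric bilinear form and `one` a vector; `Ω g n` is an element of
`H^*(Mbar g n; ℂ) ⊗ (V^*)^(⊗ n)`, that is, a multilinear map from `V^n` to `H^*(Mbar g n; ℂ)`. -/
structure FieldData (M : StableCurves T) where
  V : Type
  [addCommGroup : AddCommGroup V]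
  [module : Module ℂ V]
  [finite : FiniteDimensional ℂ V]
  η : LinearMap.BilinForm ℂ V
  symm : η.IsSymm
  nondeg : η.Nondegenerate
  one : V
  Ω : ∀ g n : ℕ, MultilinearMap ℂ (fun _ : Fin n => V) (T.HC (M.Mbar g n))

attribute [instance] FieldData.addCommGroup FieldData.module FieldData.finite

namespace FieldData

variable {M : StableCurves T} (F : FieldData M)

/-- Equivariance under the bijections of the sets of markings. -/
def Equivariant : Prop :=
  ∀ {g g' m n : ℕ} (hg : g = g') (e : Fin n ≃ Fin m) (v : Fin n → F.V), Stable g' n →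
    T.pullC (M.relabel hg e) (F.Ω g' n v) = F.Ω g m (v ∘ e.symm)

/-- The pull-back under a separating gluing map is the product, contracted with the inverse of `η`:
the sum over a basis and its dual basis. -/
def Separating : Prop :=
  ∀ g₁ n₁ g₂ n₂ : ℕ, Stable g₁ (n₁ + 1) → Stable g₂ (n₂ + 1) →
    ∀ {ι : Type} [Fintype ι] [DecidableEq ι] (e : Module.Basis ι ℂ F.V) (v : Fin n₁ → F.V)
      (w : Fin n₂ → F.V),
      T.pullC (M.sep g₁ n₁ g₂ n₂) (F.Ω (g₁ + g₂) (n₁ + n₂) (Fin.append v w)) =
        ∑ i, T.pullC prod.fst (F.Ω g₁ (n₁ + 1) (Fin.snoc v (e i))) *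
          T.pullC prod.snd (F.Ω g₂ (n₂ + 1) (Fin.snoc w (F.η.dualBasis F.nondeg e i)))

/-- The pull-back under a non-separating gluing map. -/
def NonSeparating : Prop :=
  ∀ g n : ℕ, Stable g (n + 2) →
    ∀ {ι : Type} [Fintype ι] [DecidableEq ι] (e : Module.Basis ι ℂ F.V) (v : Fin n → F.V),
      T.pullC (M.irr g n) (F.Ω (g + 1) n v) =
        ∑ i, F.Ω g (n + 2) (Fin.snoc (Fin.snoc v (e i) : Fin (n + 1) → F.V)
          (F.η.dualBasis F.nondeg e i))

/-- The axioms for the unit. -/
def HasUnit : Prop :=
  (∀ g n : ℕ, Stable g n → ∀ v : Fin n → F.V,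
    F.Ω g (n + 1) (Fin.snoc v F.one) = T.pullC (M.forget g n) (F.Ω g n v)) ∧
    ∀ v w : F.V, F.Ω 0 3 ![v, w, F.one] = F.η v w • 1

end FieldData

/-- A cohomological field theory with unit. -/
structure CohFT (M : StableCurves T) extends FieldData M where
  equivariant : toFieldData.Equivariant
  separating : toFieldData.Separating
  nonSeparating : toFieldData.NonSeparating
  unit : toFieldData.HasUnit

/-- The statement of the question for `(g, n)`: two rational homology classes of `Mbar g n` which
have the same intersection numbers with all cohomological field theories are equal. -/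
def Determined (M : StableCurves T) (g n : ℕ) : Prop :=
  ∀ A B : T.Homology (M.Mbar g n),
    (∀ (F : CohFT M) (v : Fin n → F.V), T.pairing A (F.Ω g n v) = T.pairing B (F.Ω g n v)) → A = B

/-- The moduli space has non-zero cohomology of odd degree. -/
def OddCohomology (M : StableCurves T) (g n : ℕ) : Prop :=
  ∃ k : ℕ, ∃ a ∈ T.deg (M.Mbar g n) (2 * k + 1), a ≠ 0

end

end Pool.Agent.T2h14.CF.Old
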