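import Pool.Agent.T2h14.CF.Basic

/-!
# Odd cohomology classes and the self-intersection formula
-/

set_option autoImplicit false

namespace Pool.Agent.T2h14.CF.Old

open CategoryTheory CategoryTheory.Limits TensorProduct

universe u v w

namespace CohomologyTheory

variable {𝒞 : Type u} [Category.{v} 𝒞] [HasBinaryProducts 𝒞] (T : CohomologyTheory.{u, v, w} 𝒞)

open Classical in
/-- The projection to the cohomology of odd degree. -/
noncomputable def oddProj (X : 𝒞) : T.H X →ₗ[ℚ] T.H X :=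
  (DirectSum.toModule ℚ ℕ (T.H X) fun i => if Odd i then (T.deg X i).subtype else 0) ∘ₗ
    (DirectSum.decomposeLinearEquiv (T.deg X)).toLinearMap

lemma oddProj_even {X : 𝒞} {k : ℕ} {x : T.H X} (hx : x ∈ T.deg X (2 * k)) : T.oddProj X x = 0 := by
  classical
  have h1 : DirectSum.decompose (T.deg X) x = DirectSum.of (fun i => T.deg X i) (2 * k) ⟨x, hx⟩ :=
    DirectSum.decompose_of_mem _ hx
  have h2 : ¬ Odd (2 * k) := by
    rw [Nat.not_odd_iff_even]
    exact even_two_mul k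
  have h3 : T.oddProj X x = DirectSum.toModule ℚ ℕ (T.H X)
      (fun i => if Odd i then (T.deg X i).subtype else 0) (DirectSum.decompose (T.deg X) x) := rfl
  rw [h3, h1, ← DirectSum.lof_eq_of ℚ, DirectSum.toModule_lof, if_neg h2]
  rfl

lemma oddProj_odd {X : 𝒞} {k : ℕ} {x : T.H X} (hx : x ∈ T.deg X (2 * k + 1)) :
    T.oddProj X x = x := by
  classical
  have h1 : DirectSum.decompose (T.deg X) x =
      DirectSum.of (fun i => T.deg X i) (2 * k + 1) ⟨x, hx⟩ := DirectSum.decompose_of_mem _ hx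
  have h2 : Odd (2 * k + 1) := ⟨k, rfl⟩
  have h3 : T.oddProj X x = DirectSum.toModule ℚ ℕ (T.H X)
      (fun i => if Odd i then (T.deg X i).subtype else 0) (DirectSum.decompose (T.deg X) x) := rfl
  rw [h3, h1, ← DirectSum.lof_eq_of ℚ, DirectSum.toModule_lof, if_pos h2]
  rfl

/-- The odd part of a homology class. -/
noncomputable def oddPart {X : 𝒞} (a : T.Homology X) : T.Homology X := a ∘ₗ T.oddProj X

lemma isOdd_oddPart {X : 𝒞} (a : T.Homology X) : T.IsOdd (T.oddPart a) := by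
  intro k x hx
  have h : T.oddPart a x = a (T.oddProj X x) := rfl
  rw [h, T.oddProj_even hx, map_zero]

lemma oddPart_apply {X : 𝒞} (a : T.Homology X) {k : ℕ} {x : T.H X}
    (hx : x ∈ T.deg X (2 * k + 1)) : T.oddPart a x = a x := by
  have h : T.oddPart a x = a (T.oddProj X x) := rfl
  rw [h, T.oddProj_odd hx]

lemma exists_homology {X : 𝒞} {x : T.H X} (hx : x ≠ 0) : ∃ a : T.Homology X, a x ≠ 0 := by
  by_contra h
  push Not at h
  exact hx ((Module.forall_dual_apply_eq_zero_iff ℚ x).1 h)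

lemma pull_proj {X Y : 𝒞} (f : X ⟶ Y) (m : ℕ) (x : T.H Y) :
    T.pull f (DirectSum.decompose (T.deg Y) x m : T.H Y) =
      (DirectSum.decompose (T.deg X) (T.pull f x) m : T.H X) := by
  induction x using DirectSum.Decomposition.inductionOn (T.deg Y) with
  | zero => simp
  | add x y hx hy =>
    rw [DirectSum.decompose_add, DirectSum.add_apply, Submodule.coe_add, map_add, hx, hy, map_add,
      DirectSum.decompose_add, DirectSum.add_apply, Submodule.coe_add]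
  | @homogeneous i x =>
    by_cases h : i = m
    · subst h
      rw [DirectSum.decompose_of_mem_same _ x.2,
        DirectSum.decompose_of_mem_same _ (T.pull_deg f _ _ x.2)]
    · rw [DirectSum.decompose_of_mem_ne _ x.2 h,
        DirectSum.decompose_of_mem_ne _ (T.pull_deg f _ _ x.2) h, map_zero]

/-- Classes of even degree commute with all homogeneous classes. -/
lemma comm_even {X : 𝒞} {k j : ℕ} {x y : T.H X} (hx : x ∈ T.deg X (2 * k)) (hy : y ∈ T.deg X j) :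
    x * y = y * x := by
  rw [T.comm X _ _ x y hx hy, mul_assoc, pow_mul, neg_one_sq, one_pow, one_smul]

end CohomologyTheory

section

variable {𝒞 : Type u} [Category.{v} 𝒞] [HasBinaryProducts 𝒞] {T : CohomologyTheory.{u, v, w} 𝒞}
  {M : StableCurves T}

lemma factor_ne {g n : ℕ} (h : Stable g n) : (2 * (g : ℚ) - 2 + n) ≠ 0 := by
  unfold Stable at h
  have h1 : (2 : ℚ) < 2 * g + n := by exact_mod_cast h
  intro h2
  linarith

lemma pull_forget_ne {g n : ℕ} (h : Stable g n) {x : T.H (M.Mbar g n)} (hx : x ≠ 0) :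
    T.pull (M.forget g n) x ≠ 0 := by
  obtain ⟨p, -, hp⟩ := M.dilaton g n h
  intro h1
  have h2 := hp x
  rw [h1, mul_zero, map_zero] at h2
  exact (smul_ne_zero (factor_ne h) hx) h2.symm

lemma odd_succ {g n : ℕ} (h : Stable g n) (ho : OddCohomology M g n) :
    OddCohomology M g (n + 1) := by
  obtain ⟨k, x, hx, hx0⟩ := ho
  exact ⟨k, _, T.pull_deg _ _ _ hx, pull_forget_ne h hx0⟩

lemma stable_succ {g n : ℕ} (h : Stable g n) : Stable g (n + 1) := by
  unfold Stable at *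
  omega

/-- The value of a product of homology classes on the restriction of the push-forward of the
product of `π^* x` and `y`. -/
lemma glue_value {g₁ n₁ g₂ n₂ : ℕ} (s₁ : Stable g₁ n₁) (s₂ : Stable g₂ (n₂ + 1))
    {k : ℕ} {x : T.H (M.Mbar g₁ n₁)} (hx : x ∈ T.deg _ (2 * k + 1)) (y : T.H (M.Mbar g₂ (n₂ + 1)))
    (a : T.Homology (M.Mbar g₁ n₁)) (b : T.Homology (M.Mbar g₂ (n₂ + 1)))
    {p : T.H (M.Mbar g₁ (n₁ + 1)) →ₗ[ℚ] T.H (M.Mbar g₁ n₁)}
    (hp0 : ∀ a, p (T.pull (M.forget g₁ n₁) a) = 0)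
    (hp : ∀ a, p (M.psi g₁ n₁ * T.pull (M.forget g₁ n₁) a) = (2 * (g₁ : ℚ) - 2 + n₁) • a) :
    T.ext (T.oddPart (a ∘ₗ p)) b
      ((T.pull prod.fst (M.psi g₁ n₁) + T.pull prod.snd (M.psi g₂ n₂)) *
        (T.pull prod.fst (T.pull (M.forget g₁ n₁) x) * T.pull prod.snd y)) =
      (2 * (g₁ : ℚ) - 2 + n₁) * a x * b y := by
  have hψ₁ := M.psi_deg g₁ n₁ (stable_succ s₁)
  have hψ₂ := M.psi_deg g₂ n₂ s₂
  have hα := T.pull_deg (M.forget g₁ n₁) _ _ hx
  have h1 : T.pull (prod.snd : M.Mbar g₁ (n₁ + 1) ⨯ M.Mbar g₂ (n₂ + 1) ⟶ _) (M.psi g₂ n₂) *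
      T.pull prod.fst (T.pull (M.forget g₁ n₁) x) =
      T.pull prod.fst (T.pull (M.forget g₁ n₁) x) * T.pull prod.snd (M.psi g₂ n₂) :=
    T.comm_even (k := 1) (T.pull_deg _ _ _ hψ₂) (T.pull_deg _ _ _ hα)
  have h2 : M.psi g₁ n₁ * T.pull (M.forget g₁ n₁) x ∈ T.deg _ (2 * (k + 1) + 1) := by
    have := SetLike.mul_mem_graded hψ₁ hα
    rwa [show 2 + (2 * k + 1) = 2 * (k + 1) + 1 by ring] at this
  rw [add_mul, ← mul_assoc, ← mul_assoc, h1, ← map_mul, mul_assoc, ← map_mul, map_add, T.ext_apply,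
    T.ext_apply, T.oddPart_apply _ h2, T.oddPart_apply _ hα, LinearMap.comp_apply,
    LinearMap.comp_apply, hp, hp0, map_zero, zero_mul, add_zero, map_smul, smul_eq_mul]

/-- If the moduli spaces for `(g₁, n₁)` and `(g₂, n₂)` both have odd cohomology then the answer to
the question for `(g₁ + g₂, n₁ + n₂)` is negative. -/
theorem not_determined {g₁ n₁ g₂ n₂ : ℕ} (hn₁ : 1 ≤ n₁) (hn₂ : 1 ≤ n₂) (s₁ : Stable g₁ n₁)
    (s₂ : Stable g₂ n₂) (o₁ : OddCohomology M g₁ n₁) (o₂ : OddCohomology M g₂ n₂) :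
    ¬ Determined M (g₁ + g₂) (n₁ + n₂) := by
  intro hdet
  obtain ⟨k₁, x, hx, hx0⟩ := o₁
  obtain ⟨k₂, y, hy, hy0⟩ := o₂
  obtain ⟨p, hp0, hp⟩ := M.dilaton g₁ n₁ s₁
  obtain ⟨s, hs⟩ := M.self_intersection g₁ n₁ g₂ n₂ hn₁ hn₂ (stable_succ s₁) (stable_succ s₂)
  obtain ⟨a, ha⟩ := T.exists_homology hx0
  obtain ⟨b, hb⟩ := T.exists_homology (pull_forget_ne s₂ hy0)
  have hA : T.push (M.sep g₁ n₁ g₂ n₂) (T.ext (T.oddPart (a ∘ₗ p)) (T.oddPart b)) = 0 := by
    refine hdet _ _ fun F v => ?_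
    rw [pairing_zero F (stable_succ s₁) (stable_succ s₂) (T.isOdd_oddPart _) (T.isOdd_oddPart _) v]
    have h0 : T.pairing (0 : T.Homology (M.Mbar (g₁ + g₂) (n₁ + n₂))) = 0 := by
      unfold CohomologyTheory.pairing
      rw [map_zero]
    rw [h0, LinearMap.zero_apply]
  have hval := LinearMap.congr_fun hA
    (s (T.pull prod.fst (T.pull (M.forget g₁ n₁) x) * T.pull prod.snd (T.pull (M.forget g₂ n₂) y)))
  have h1 : T.push (M.sep g₁ n₁ g₂ n₂) (T.ext (T.oddPart (a ∘ₗ p)) (T.oddPart b))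
      (s (T.pull prod.fst (T.pull (M.forget g₁ n₁) x) *
        T.pull prod.snd (T.pull (M.forget g₂ n₂) y))) =
      T.ext (T.oddPart (a ∘ₗ p)) (T.oddPart b) (T.pull (M.sep g₁ n₁ g₂ n₂)
      (s (T.pull prod.fst (T.pull (M.forget g₁ n₁) x) *
        T.pull prod.snd (T.pull (M.forget g₂ n₂) y)))) := rfl
  rw [h1, hs, map_neg, glue_value s₁ (stable_succ s₂) hx _ a (T.oddPart b) hp0 hp,
    T.oddPart_apply b (T.pull_deg _ _ _ hy), LinearMap.zero_apply, neg_eq_zero] at hval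
  exact (mul_ne_zero (mul_ne_zero (factor_ne s₁) ha) hb) hval

lemma odd_glue {g₁ n₁ g₂ n₂ : ℕ} (hn₁ : 1 ≤ n₁) (hn₂ : 1 ≤ n₂) (s₁ : Stable g₁ n₁)
    (s₂ : Stable g₂ (n₂ + 1)) (o₁ : OddCohomology M g₁ n₁) :
    OddCohomology M (g₁ + g₂) (n₁ + n₂) := by
  obtain ⟨k, x, hx, hx0⟩ := o₁
  obtain ⟨p, hp0, hp⟩ := M.dilaton g₁ n₁ s₁
  obtain ⟨s, hs⟩ := M.self_intersection g₁ n₁ g₂ n₂ hn₁ hn₂ (stable_succ s₁) s₂
  obtain ⟨a, ha⟩ := T.exists_homology hx0
  obtain ⟨b, hb⟩ := T.exists_homology (M.one_ne_zero g₂ (n₂ + 1) s₂)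
  have hψ₁ := M.psi_deg g₁ n₁ (stable_succ s₁)
  have hψ₂ := M.psi_deg g₂ n₂ s₂
  have hα := T.pull_deg (M.forget g₁ n₁) _ _ hx
  have hval := glue_value s₁ s₂ hx 1 a b hp0 hp
  rw [map_one, mul_one] at hval
  have ht : (T.pull prod.fst (M.psi g₁ n₁) + T.pull prod.snd (M.psi g₂ n₂)) *
      T.pull (prod.fst : M.Mbar g₁ (n₁ + 1) ⨯ M.Mbar g₂ (n₂ + 1) ⟶ _)
        (T.pull (M.forget g₁ n₁) x) ∈ T.deg _ (2 * (k + 1) + 1) := by
    have h1 : T.pull prod.fst (M.psi g₁ n₁) + T.pull prod.snd (M.psi g₂ n₂) ∈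
        T.deg (M.Mbar g₁ (n₁ + 1) ⨯ M.Mbar g₂ (n₂ + 1)) 2 :=
      Submodule.add_mem _ (T.pull_deg _ _ _ hψ₁) (T.pull_deg _ _ _ hψ₂)
    have := SetLike.mul_mem_graded h1 (T.pull_deg
      (prod.fst : M.Mbar g₁ (n₁ + 1) ⨯ M.Mbar g₂ (n₂ + 1) ⟶ _) _ _ hα)
    rwa [show 2 + (2 * k + 1) = 2 * (k + 1) + 1 by ring] at this
  refine ⟨k + 1, _, (DirectSum.decompose (T.deg _)
    (s (T.pull prod.fst (T.pull (M.forget g₁ n₁) x))) (2 * (k + 1) + 1)).2, fun h0 => ?_⟩
  have h2 := T.pull_proj (M.sep g₁ n₁ g₂ n₂) (2 * (k + 1) + 1)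
    (s (T.pull prod.fst (T.pull (M.forget g₁ n₁) x)))
  rw [h0, map_zero, hs, DirectSum.decompose_of_mem_same _ (Submodule.neg_mem _ ht)] at h2
  rw [neg_eq_zero.1 h2.symm, map_zero] at hval
  exact (mul_ne_zero (mul_ne_zero (factor_ne s₁) ha) hb) hval.symm

lemma odd_one (M : StableCurves T) {n : ℕ} (hn : 11 ≤ n) : OddCohomology M 1 n := by
  induction n, hn using Nat.le_induction with
  | base =>
    obtain ⟨a, ha, ha0⟩ := M.cusp
    exact ⟨5, a, ha, ha0⟩
  | succ n hn ih => exact odd_succ (by unfold Stable; omega) ih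

lemma odd_all (M : StableCurves T) {g n : ℕ} (hg : 1 ≤ g) (hn : 12 ≤ n) : OddCohomology M g n := by
  rcases Nat.eq_or_lt_of_le hg with rfl | hg2
  · exact odd_one M (by omega)
  · have h := odd_glue (g₂ := g - 1) (n₂ := n - 11) (by norm_num) (by omega)
      (show Stable 1 11 by unfold Stable; omega) (by unfold Stable; omega) (odd_one M le_rfl)
    rwa [show 1 + (g - 1) = g by omega, show 11 + (n - 11) = n by omega] at h

/-- The answer to the question is negative for all `g ≥ 2` and `n ≥ 23`. -/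
theorem not_determined_all (M : StableCurves T) {g n : ℕ} (hg : 2 ≤ g) (hn : 23 ≤ n) :
    ¬ Determined M g n := by
  have h := not_determined (g₂ := g - 1) (n₂ := n - 11) (by norm_num) (by omega)
    (show Stable 1 11 by unfold Stable; omega) (by unfold Stable; omega) (odd_one M le_rfl)
    (odd_all M (by omega) (by omega))
  rwa [show 1 + (g - 1) = g by omega, show 11 + (n - 11) = n by omega] at h

theorem not_determined_two (M : StableCurves T) : ¬ Determined M 2 22 :=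
  not_determined (g₁ := 1) (n₁ := 11) (g₂ := 1) (n₂ := 11) (by norm_num) (by norm_num)
    (by unfold Stable; omega) (by unfold Stable; omega) (odd_one M le_rfl) (odd_one M le_rfl)

end

end Pool.Agent.T2h14.CF.Old
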