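import Mathlib

/-!
# Cohomological field theories and the cohomology of the moduli spaces of stable curves

The singular cohomology with rational coefficients, as a functor on a category of spaces, the
moduli spaces of stable pointed curves with the maps between them, and cohomological field theories.
-/

set_option autoImplicit false

namespace Pool.Agent.T2h14.CF

open CategoryTheory CategoryTheory.Limits TensorProduct

universe u v w

/-! ### Cohomology -/

/-- The data of a cohomology theory with rational coefficients on a category `Space` of spaces with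
products: `H X` is the total cohomology `⨁ H^k(X; ℚ)`, with the cup product and the grading `deg`,
and `pull f` is the pull-back under the morphism `f`, a homomorphism of algebras. The example is
singular cohomology on the category of the non-empty compact spaces which are homeomorphic to finite
CW complexes. -/
structure Cohomology where
  Space : Type u
  [category : Category.{v} Space]
  [products : HasBinaryProducts Space]
  H : Space → Type w
  [ring : ∀ X, Ring (H X)]
  [algebra : ∀ X, Algebra ℚ (H X)]
  [finite : ∀ X, Module.Finite ℚ (H X)]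
  deg : ∀ X, ℕ → Submodule ℚ (H X)
  [graded : ∀ X, GradedAlgebra (deg X)]
  pull : ∀ {X Y : Space}, (X ⟶ Y) → (H Y →ₐ[ℚ] H X)

attribute [instance] Cohomology.category Cohomology.products Cohomology.ring Cohomology.algebra
  Cohomology.finite Cohomology.graded

namespace Cohomology

variable (T : Cohomology.{u, v, w})

/-- The pull-back `f^* a`. -/
def pb {X Y : T.Space} (f : X ⟶ Y) (a : T.H Y) : T.H X := T.pull f a

/-- The cup product is graded commutative. -/
def IsGradedCommutative : Prop :=
  ∀ (X : T.Space) (i j : ℕ) (a b : T.H X), a ∈ T.deg X i → b ∈ T.deg X j →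
    a * b = (-1 : ℚ) ^ (i * j) • (b * a)

/-- Pull-backs respect the composition. -/
def PullComp : Prop :=
  ∀ {X Y Z : T.Space} (f : X ⟶ Y) (g : Y ⟶ Z) (a : T.H Z), T.pb (f ≫ g) a = T.pb f (T.pb g a)

/-- Pull-backs respect the degree. -/
def PullDeg : Prop :=
  ∀ {X Y : T.Space} (f : X ⟶ Y) (k : ℕ) (a : T.H Y), a ∈ T.deg Y k → T.pb f a ∈ T.deg X k

/-- The Künneth formula: the cross product, which maps `a ⊗ b` to `pr₁^* a * pr₂^* b`, is an
isomorphism. -/
def HasKuenneth : Prop :=
  ∀ X Y : T.Space, ∃ e : T.H X ⊗[ℚ] T.H Y ≃ₗ[ℚ] T.H (X ⨯ Y),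
    ∀ a b, e (a ⊗ₜ[ℚ] b) = T.pb prod.fst a * T.pb prod.snd b

/-- The usual properties of the cohomology. -/
structure IsCohomology : Prop where
  comm : T.IsGradedCommutative
  pull_id : ∀ (X : T.Space) (a : T.H X), T.pb (𝟙 X) a = a
  pull_comp : T.PullComp
  pull_deg : T.PullDeg
  kuenneth : T.HasKuenneth

/-- The cohomology with complex coefficients, `H^*(X; ℂ) = ℂ ⊗ H^*(X; ℚ)`. -/
def HC (X : T.Space) : Type w := ℂ ⊗[ℚ] T.H X

noncomputable instance instRingHC (X : T.Space) : Ring (T.HC X) :=
  (Algebra.TensorProduct.instRing : Ring (ℂ ⊗[ℚ] T.H X))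

noncomputable instance instAddCommGroupHC (X : T.Space) : AddCommGroup (T.HC X) :=
  (T.instRingHC X).toAddCommGroup

noncomputable instance instModuleHC (X : T.Space) : Module ℂ (T.HC X) :=
  (TensorProduct.leftModule : Module ℂ (ℂ ⊗[ℚ] T.H X))

/-- The pull-back in the cohomology with complex coefficients. -/
noncomputable def pbC {X Y : T.Space} (f : X ⟶ Y) (x : T.HC Y) : T.HC X :=
  Algebra.TensorProduct.map (AlgHom.id ℂ ℂ) (T.pull f) x

/-- The cross product in the cohomology with complex coefficients. -/
noncomputable def crossC {X Y : T.Space} (x : T.HC X) (y : T.HC Y) : T.HC (X ⨯ Y) :=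
  T.pbC prod.fst x * T.pbC prod.snd y

/-- The rational homology `H_*(X; ℚ)`: the dual space of the (finite-dimensional) rational
cohomology. -/
abbrev Homology (X : T.Space) : Type w := Module.Dual ℚ (T.H X)

/-- The pairing of a rational homology class with the classes in the complex cohomology, with
values in `ℂ`: `⟨A, z ⊗ a⟩ = z * A a`. -/
noncomputable def pairing {X : T.Space} (A : T.Homology X) (x : T.HC X) : ℂ :=
  Module.Dual.baseChange ℂ A x

end Cohomology

/-! ### Moduli spaces of stable curves -/

/-- The moduli space of stable curves of genus `g` with `n` markings is defined: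
`2 g - 2 + n > 0`. -/
def Stable (g n : ℕ) : Prop := 2 < 2 * g + n

/-- The moduli spaces `Mbar g n` of stable curves of genus `g` with `n` markings, with

* the maps `relabel`: for a bijection `e` of the sets of markings, `relabel e` maps the curve
  `(C, p)` with the markings `p : Fin m → C` to `(C, p ∘ e)`;
* the map `forget`, which forgets the last marking (and contracts the unstable component);
* the gluing maps: `sep` maps the pair `(C₁, C₂)` to the curve which is given by gluing the last
  marking of `C₁` and the last marking of `C₂`, the markings of `C₁` come first; `irr` glues the last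
  two markings of a curve;
* `psi`: the first Chern class `ψ` of the cotangent line at the last marking.

They are objects and morphisms of the category of spaces (the rational cohomology of the moduli
stacks is the one of their coarse moduli spaces). Only the values with `Stable g n` matter, for the
others take a point. -/
structure Moduli (T : Cohomology.{u, v, w}) where
  Mbar : ℕ → ℕ → T.Space
  relabel : ∀ {g g' m n : ℕ}, g = g' → (Fin n ≃ Fin m) → (Mbar g m ⟶ Mbar g' n)
  forget : ∀ g n : ℕ, Mbar g (n + 1) ⟶ Mbar g n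
  sep : ∀ g₁ n₁ g₂ n₂ : ℕ, Mbar g₁ (n₁ + 1) ⨯ Mbar g₂ (n₂ + 1) ⟶ Mbar (g₁ + g₂) (n₁ + n₂)
  irr : ∀ g n : ℕ, Mbar g (n + 2) ⟶ Mbar (g + 1) n
  psi : ∀ g n : ℕ, T.H (Mbar g (n + 1))

namespace Moduli

variable {T : Cohomology.{u, v, w}} (M : Moduli T)

/-- The gluing of `(C₂, C₁)` is the gluing of `(C₁, C₂)` with the two blocks of markings
exchanged (by definition). -/
def SepSwap : Prop :=
  ∀ g₁ n₁ g₂ n₂ : ℕ, Stable g₁ (n₁ + 1) → Stable g₂ (n₂ + 1) →
    M.sep g₁ n₁ g₂ n₂ ≫ M.relabel (Nat.add_comm g₁ g₂)
      (finAddFlip : Fin (n₂ + n₁) ≃ Fin (n₁ + n₂)) =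
      prod.lift prod.snd prod.fst ≫ M.sep g₂ n₂ g₁ n₁

/-- The class `ψ` has degree `2`. -/
def PsiDeg : Prop := ∀ g n : ℕ, Stable g (n + 1) → M.psi g n ∈ T.deg (M.Mbar g (n + 1)) 2

/-- With the push-forward `p = π_*` under the map `π` which forgets the last marking, `π_* π^* a = 0`
and `π_* (ψ * π^* a) = (2 g - 2 + n) a` (the projection formula, and the dilaton equation). -/
def Dilaton : Prop :=
  ∀ g n : ℕ, Stable g n → ∃ p : T.H (M.Mbar g (n + 1)) →ₗ[ℚ] T.H (M.Mbar g n),
    (∀ a, p (T.pb (M.forget g n) a) = 0) ∧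
      ∀ a, p (M.psi g n * T.pb (M.forget g n) a) = (2 * (g : ℚ) - 2 + n) • a

/-- The source of the separating gluing map. -/
noncomputable abbrev Pair (g₁ n₁ g₂ n₂ : ℕ) : T.Space := M.Mbar g₁ (n₁ + 1) ⨯ M.Mbar g₂ (n₂ + 1)

/-- The first Chern class `- (ψ ⊗ 1 + 1 ⊗ ψ)` of the normal bundle of a separating gluing map: the
normal bundle is the tensor product of the tangent lines at the two points. -/
noncomputable def normal (g₁ n₁ g₂ n₂ : ℕ) : T.H (M.Pair g₁ n₁ g₂ n₂) :=
  -(T.pb prod.fst (M.psi g₁ n₁) + T.pb prod.snd (M.psi g₂ n₂))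

/-- The self-intersection formula: if there are markings on both components then the gluing map
`ξ = sep` is a closed embedding of codimension one, and so `ξ^* ξ_* y = c₁(normal bundle) * y` with the
push-forward `s = ξ_*`. -/
def SelfIntersection : Prop :=
  ∀ g₁ n₁ g₂ n₂ : ℕ, 1 ≤ n₁ → 1 ≤ n₂ → Stable g₁ (n₁ + 1) → Stable g₂ (n₂ + 1) →
    ∃ s : T.H (M.Pair g₁ n₁ g₂ n₂) →ₗ[ℚ] T.H (M.Mbar (g₁ + g₂) (n₁ + n₂)),
      ∀ y, T.pb (M.sep g₁ n₁ g₂ n₂) (s y) = M.normal g₁ n₁ g₂ n₂ * y

/-- The moduli spaces are not empty: `1 ≠ 0` in their cohomology. -/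
def OneNeZero : Prop := ∀ g n : ℕ, Stable g n → (1 : T.H (M.Mbar g n)) ≠ 0

/-- The group `H^11` of the moduli space of curves of genus one with eleven markings is not zero (it
is given by the cusp form of weight `12`). -/
def CuspForm : Prop := ∃ a ∈ T.deg (M.Mbar 1 11) 11, a ≠ 0

/-- The known facts on the cohomology of the moduli spaces of stable curves which we use. -/
structure IsStableCurves : Prop where
  sep_swap : M.SepSwap
  psi_deg : M.PsiDeg
  dilaton : M.Dilaton
  self_intersection : M.SelfIntersection
  one_ne_zero : M.OneNeZero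
  cusp : M.CuspForm

/-- The moduli space has non-zero cohomology of odd degree. -/
def OddCohomology (g n : ℕ) : Prop :=
  ∃ k : ℕ, ∃ a ∈ T.deg (M.Mbar g n) (2 * k + 1), a ≠ 0

end Moduli

/-! ### Cohomological field theories -/

/-- The data `(V, η, 1, Ω)` of a cohomological field theory: `V` is a finite-dimensional complex
vector space, `η` a nondegenerate symmetric bilinear form and `one` a vector; `Ω g n` is an element of
`H^*(Mbar g n; ℂ) ⊗ (V^*)^(⊗ n)`, that is, a multilinear map from `V^n` to `H^*(Mbar g n; ℂ)`. -/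
structure FieldData {T : Cohomology.{u, v, w}} (M : Moduli T) where
  V : Type
  [addCommGroup : AddCommGroup V]
  [module : Module ℂ V]
  [finite : FiniteDimensional ℂ V]
  η : LinearMap.BilinForm ℂ V
  symm : η.IsSymm
  nondeg : η.Nondegenerate
  one : V
  Ω : ∀ g n : ℕ, MultilinearMap ℂ (fun _ : Fin n => V) (T.HC (M.Mbar g n))

attribute [instance] FieldData.addCommGroup FieldData.module FieldData.finite

namespace FieldData

variable {T : Cohomology.{u, v, w}} {M : Moduli T} (F : FieldData M)

/-- The class `Ω_{g,n}(v₁, ..., v_n)` in `H^*(Mbar g n; ℂ)`. -/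
noncomputable def cl (g n : ℕ) (v : Fin n → F.V) : T.HC (M.Mbar g n) := F.Ω g n v

/-- The dual basis, `η (e i) (dual e j) = δ_ij`. -/
noncomputable def dual {ι : Type} [Fintype ι] [DecidableEq ι] (e : Module.Basis ι ℂ F.V) : ι → F.V :=
  F.η.dualBasis F.nondeg e

/-- Equivariance under the bijections of the sets of markings. -/
def Equivariant : Prop :=
  ∀ {g g' m n : ℕ} (hg : g = g') (e : Fin n ≃ Fin m) (v : Fin n → F.V), Stable g' n →
    T.pbC (M.relabel hg e) (F.cl g' n v) = F.cl g m (v ∘ e.symm)

/-- The pull-back under a separating gluing map is the product, contracted with the inverse of `η`: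
the sum over a basis and its dual basis. -/
def Separating : Prop :=
  ∀ g₁ n₁ g₂ n₂ : ℕ, Stable g₁ (n₁ + 1) → Stable g₂ (n₂ + 1) →
    ∀ {ι : Type} [Fintype ι] [DecidableEq ι] (e : Module.Basis ι ℂ F.V) (v : Fin n₁ → F.V)
      (w : Fin n₂ → F.V),
      T.pbC (M.sep g₁ n₁ g₂ n₂) (F.cl (g₁ + g₂) (n₁ + n₂) (Fin.append v w)) =
        ∑ i, T.crossC (F.cl g₁ (n₁ + 1) (Fin.snoc v (e i)))
          (F.cl g₂ (n₂ + 1) (Fin.snoc w (F.dual e i)))

/-- The pull-back under a non-separating gluing map. -/
def NonSeparating : Prop :=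
  ∀ g n : ℕ, Stable g (n + 2) →
    ∀ {ι : Type} [Fintype ι] [DecidableEq ι] (e : Module.Basis ι ℂ F.V) (v : Fin n → F.V),
      T.pbC (M.irr g n) (F.cl (g + 1) n v) =
        ∑ i, F.cl g (n + 2) (Fin.snoc (Fin.snoc v (e i) : Fin (n + 1) → F.V) (F.dual e i))

/-- The axioms for the unit: `Ω_{g,n+1}(v, 1) = π^* Ω_{g,n}(v)` and `Ω_{0,3}(v, w, 1) = η(v, w)`. -/
def HasUnit : Prop :=
  (∀ g n : ℕ, Stable g n → ∀ v : Fin n → F.V,
    F.cl g (n + 1) (Fin.snoc v F.one) = T.pbC (M.forget g n) (F.cl g n v)) ∧
    ∀ v w : F.V, F.cl 0 3 ![v, w, F.one] = F.η v w • 1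

/-- The axioms of a cohomological field theory with unit. -/
structure IsCohFT : Prop where
  equivariant : F.Equivariant
  separating : F.Separating
  nonSeparating : F.NonSeparating
  unit : F.HasUnit

end FieldData

/-- The statement of the question for `(g, n)`: two rational homology classes of `Mbar g n` which
have the same intersection numbers with all cohomological field theories are equal. -/
def Moduli.Determined {T : Cohomology.{u, v, w}} (M : Moduli T) (g n : ℕ) : Prop :=
  ∀ A B : T.Homology (M.Mbar g n),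
    (∀ F : FieldData M, F.IsCohFT → ∀ v : Fin n → F.V,
      T.pairing A (F.cl g n v) = T.pairing B (F.cl g n v)) → A = B

end Pool.Agent.T2h14.CF
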